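import Mathlib

/-!
# A two-circulant-core Hadamard matrix of order 28 that is not cocyclic

The automorphism group of a cocyclic matrix is transitive on the rows, so the number of triples of rows
having generalised inner product `± 20` with a row is the same for all rows. It is `78` for the first row
and `54` for the third row of a two-circulant-core matrix with cores of order `13`.
-/

set_option autoImplicit false

namespace Pool.Agent.Results.MP_e1608d_co.OrderTwentyEight

open Finset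

/-- A 2-cocycle of `G` with values `±1`. -/
def IsCocycle {G : Type} [Group G] (ψ : G → G → ℤ) : Prop :=
  (∀ g h, ψ g h = 1 ∨ ψ g h = -1) ∧
    ∀ g h k, ψ g h * ψ (g * h) k = ψ h k * ψ g (h * k)

/-- `H` is equivalent to the matrix `[ψ(g, h)]` of some 2-cocycle `ψ` of some group `G`. -/
def IsCocyclic {ι : Type} (H : Matrix ι ι ℤ) : Prop :=
  ∃ (G : Type) (_ : Group G) (ψ : G → G → ℤ) (e f : ι ≃ G) (ε η : ι → ℤ), IsCocycle ψ ∧
    (∀ i, ε i = 1 ∨ ε i = -1) ∧ (∀ i, η i = 1 ∨ η i = -1) ∧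
    ∀ i j, H i j = ε i * η j * ψ (e i) (f j)

/-- `H` is a Hadamard matrix. -/
def IsHadamard {ι : Type} [Fintype ι] [DecidableEq ι] (H : Matrix ι ι ℤ) : Prop :=
  (∀ i j, H i j = 1 ∨ H i j = -1) ∧ H * H.transpose = (Fintype.card ι : ℤ) • (1 : Matrix ι ι ℤ)

/-- The circulant matrix with first row `a`. -/
def circ {l : ℕ} (a : Fin l → ℤ) : Matrix (Fin l) (Fin l) ℤ := fun i j => a (j - i)

/-- The matrix `H(A, B)`: two border rows and columns, then the two blocks of rows and columns. -/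
def twoCore {l : ℕ} (A B : Matrix (Fin l) (Fin l) ℤ) :
    Matrix (Fin 2 ⊕ (Fin l ⊕ Fin l)) (Fin 2 ⊕ (Fin l ⊕ Fin l)) ℤ :=
  Matrix.fromBlocks !![-1, -1; -1, 1]
    (fun i j => Sum.elim (fun _ => 1) (fun _ => if i = 0 then 1 else -1) j)
    (fun i j => Sum.elim (fun _ => 1) (fun _ => if j = 0 then 1 else -1) i)
    (Matrix.fromBlocks A B B.transpose (-A.transpose))

/-! ### An invariant of the rows -/

/-- The generalised inner product of four rows. -/
def quad {ι : Type} [Fintype ι] (H : Matrix ι ι ℤ) (x y z w : ι) : ℤ :=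
  ∑ c, H x c * H y c * H z c * H w c

/-- The number of ordered triples of rows having generalised inner product `±20` with the row `x`. -/
def num {ι : Type} [Fintype ι] (H : Matrix ι ι ℤ) (x : ι) : ℕ :=
  ∑ y, ∑ z, ∑ w, if quad H x y z w ^ 2 = 400 then 1 else 0

theorem sq_one {x : ℤ} (h : x = 1 ∨ x = -1) : x ^ 2 = 1 := by rcases h with h | h <;> rw [h] <;> rfl

theorem num_const {ι : Type} [Fintype ι] (H : Matrix ι ι ℤ) (hH : IsCocyclic H) (x x' : ι) :
    num H x = num H x' := by
  obtain ⟨G, hG, ψ, e, f, ε, η, ⟨hψ, hcoc⟩, hε, hη, hHe⟩ := hH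
  -- the row permutation and the column permutation given by right and left multiplication
  set k : G := (e x)⁻¹ * e x' with hk
  let ρ : ι ≃ ι := (e.trans (Equiv.mulRight k)).trans e.symm
  let τ : ι ≃ ι := (f.trans (Equiv.mulLeft k)).trans f.symm
  have hρ : ∀ i, e (ρ i) = e i * k := fun i => by simp [ρ]
  have hτ : ∀ j, f (τ j) = k * f j := fun j => by simp [τ]
  have hρx : ρ x = x' := e.injective (by rw [hρ, hk]; group)
  -- the entries
  have hent : ∀ i j, H (ρ i) j = (ε (ρ i) * ε i * ψ (e i) k) * (η j * η (τ j) * ψ k (f j)) * H i (τ j) := by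
    intro i j
    have h1 := hcoc (e i) k (f j)
    have h2 : ψ (e i * k) (f j) = ψ (e i) k * (ψ k (f j) * ψ (e i) (k * f j)) := by
      rw [← h1]
      have := sq_one (hψ (e i) k)
      calc ψ (e i * k) (f j) = ψ (e i) k ^ 2 * ψ (e i * k) (f j) := by rw [this, one_mul]
        _ = _ := by ring
    rw [hHe, hHe, hρ, hτ, h2]
    have h3 := sq_one (hε i)
    have h4 := sq_one (hη (τ j))
    calc ε (ρ i) * η j * (ψ (e i) k * (ψ k (f j) * ψ (e i) (k * f j)))
        = ε i ^ 2 * η (τ j) ^ 2 * (ε (ρ i) * η j * (ψ (e i) k * (ψ k (f j) * ψ (e i) (k * f j)))) := by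
          rw [h3, h4]; ring
      _ = _ := by ring
  -- the generalised inner products
  have hq : ∀ a b c d, quad H (ρ a) (ρ b) (ρ c) (ρ d) ^ 2 = quad H a b c d ^ 2 := by
    intro a b c d
    set s : ι → ℤ := fun i => ε (ρ i) * ε i * ψ (e i) k with hs
    have hs2 : ∀ i, s i ^ 2 = 1 := fun i => by
      simp only [hs]
      rw [mul_pow, mul_pow, sq_one (hε _), sq_one (hε _), sq_one (hψ _ _)]; rfl
    have h1 : quad H (ρ a) (ρ b) (ρ c) (ρ d) = s a * s b * s c * s d * quad H a b c d := by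
      unfold quad
      rw [Finset.mul_sum, ← Equiv.sum_comp τ (fun j => s a * s b * s c * s d *
        (H a j * H b j * H c j * H d j))]
      refine Finset.sum_congr rfl fun j _ => ?_
      rw [hent a, hent b, hent c, hent d]
      have h5 : (η j * η (τ j) * ψ k (f j)) ^ 4 = 1 := by
        have h6 : (η j * η (τ j) * ψ k (f j)) ^ 2 = 1 := by
          rw [mul_pow, mul_pow, sq_one (hη _), sq_one (hη _), sq_one (hψ _ _)]; rfl
        rw [show (4 : ℕ) = 2 * 2 from rfl, pow_mul, h6]; rfl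
      calc _ = (η j * η (τ j) * ψ k (f j)) ^ 4 * (s a * s b * s c * s d *
            (H a (τ j) * H b (τ j) * H c (τ j) * H d (τ j))) := by simp only [hs]; ring
        _ = _ := by rw [h5, one_mul]
    rw [h1, mul_pow, mul_pow, mul_pow, mul_pow, hs2, hs2, hs2, hs2]; ring
  unfold num
  rw [← hρx]
  have step : ∀ F : ι → ℕ, ∑ y, F y = ∑ y, F (ρ y) := fun F => (Equiv.sum_comp ρ F).symm
  rw [step (fun y => ∑ z, ∑ w, if quad H (ρ x) y z w ^ 2 = 400 then 1 else 0)]
  refine Finset.sum_congr rfl fun y _ => ?_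
  rw [step (fun z => ∑ w, if quad H (ρ x) (ρ y) z w ^ 2 = 400 then 1 else 0)]
  refine Finset.sum_congr rfl fun z _ => ?_
  rw [step (fun w => if quad H (ρ x) (ρ y) (ρ z) w ^ 2 = 400 then 1 else 0)]
  refine Finset.sum_congr rfl fun w _ => ?_
  rw [hq]

/-! ### The example -/

def a : Fin 13 → ℤ := ![-1, -1, 1, 1, -1, 1, -1, -1, 1, -1, 1, 1, 1]

def b : Fin 13 → ℤ := ![-1, -1, -1, -1, 1, -1, 1, 1, 1, -1, 1, 1, 1]

/-- The matrix. -/
def M : Matrix (Fin 2 ⊕ (Fin 13 ⊕ Fin 13)) (Fin 2 ⊕ (Fin 13 ⊕ Fin 13)) ℤ := twoCore (circ a) (circ b)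

/-- The rows as numbers, the binary ones being the entries `-1`. -/
def masks : List ℕ := [3, 268402689, 18320204, 36640408, 73280816, 146561632, 24687812, 49375624,
  98718484, 197404204, 126405720, 252778676, 237154664, 205906640, 143377828, 110588998, 221145230,
  173855006, 79274558, 158549114, 48662774, 97325546, 194651090, 120899490, 241766214, 215129738,
  161856786, 55310882]

def mask (i : ℕ) : ℕ := masks.getD i 0

/-- The position of an index among `0, …, 27`. -/
def pos : Fin 2 ⊕ (Fin 13 ⊕ Fin 13) → Fin 28 :=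
  Sum.elim (fun i => ⟨i, by omega⟩) (Sum.elim (fun i => ⟨2 + i, by omega⟩) (fun i => ⟨15 + i, by omega⟩))

theorem pos_bij : Function.Bijective pos := by
  rw [Fintype.bijective_iff_injective_and_card]
  constructor
  · decide +kernel
  · rfl

noncomputable def posE : Fin 2 ⊕ (Fin 13 ⊕ Fin 13) ≃ Fin 28 := Equiv.ofBijective pos pos_bij

def sg (t : Bool) : ℤ := if t then -1 else 1

theorem M_eq : ∀ i j : Fin 2 ⊕ (Fin 13 ⊕ Fin 13),
    M i j = sg ((mask (pos i)).testBit (pos j)) := by
  have h1 : ∀ i j : Fin 2 ⊕ (Fin 13 ⊕ Fin 13), decide (M i j = sg ((mask (pos i)).testBit (pos j))) = true := by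
    decide +kernel
  exact fun i j => of_decide_eq_true (h1 i j)

/-- The sum of the signs of a number. -/
def val (x : ℕ) : ℤ := ∑ c : Fin 28, sg (x.testBit c)

theorem sg_xor (s t : Bool) : sg s * sg t = sg (s ^^ t) := by cases s <;> cases t <;> rfl

theorem quad_eq (x y z w : Fin 2 ⊕ (Fin 13 ⊕ Fin 13)) : quad M x y z w =
    val (mask (pos x) ^^^ mask (pos y) ^^^ mask (pos z) ^^^ mask (pos w)) := by
  unfold quad val
  rw [← Equiv.sum_comp posE]
  refine Finset.sum_congr rfl fun c _ => ?_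
  rw [M_eq, M_eq, M_eq, M_eq, sg_xor, sg_xor, sg_xor, ← Nat.testBit_xor, ← Nat.testBit_xor,
    ← Nat.testBit_xor]
  rfl

/-- The number of ones among the last `n` binary digits. -/
def pc : ℕ → ℕ → ℕ
  | 0, _ => 0
  | n + 1, x => x % 2 + pc n (x / 2)

theorem sum_sg : ∀ (n x : ℕ), ∑ c : Fin n, sg (x.testBit c) = n - 2 * (pc n x : ℤ)
  | 0, x => by simp [pc]
  | n + 1, x => by
    rw [Fin.sum_univ_succ]
    have h : ∀ c : Fin n, sg (x.testBit (c.succ : Fin (n + 1))) = sg ((x / 2).testBit c) := by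
      intro c
      rw [Fin.val_succ, Nat.testBit_succ]
    rw [Finset.sum_congr rfl (fun c _ => h c), sum_sg n (x / 2), pc]
    have h2 : sg (x.testBit ((0 : Fin (n + 1)) : ℕ)) = 1 - 2 * ((x % 2 : ℕ) : ℤ) := by
      rw [Fin.val_zero, Nat.testBit_zero]
      rcases Nat.mod_two_eq_zero_or_one x with h3 | h3 <;> rw [h3] <;> rfl
    rw [h2]
    push_cast
    ring

/-- Is the number of ones `4` or `24`? -/
def good (x : ℕ) : Bool := pc 28 x == 4 || pc 28 x == 24

theorem good_iff (x : ℕ) : val x ^ 2 = 400 ↔ good x = true := by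
  unfold val good
  rw [sum_sg]
  simp only [Bool.or_eq_true, beq_iff_eq]
  constructor
  · intro h
    have h1 : (((28 : ℕ) : ℤ) - 2 * (pc 28 x : ℤ) - 20) * (((28 : ℕ) : ℤ) - 2 * (pc 28 x : ℤ) + 20) = 0 := by
      linarith [h, sq_nonneg (((28 : ℕ) : ℤ) - 2 * (pc 28 x : ℤ)),
        pow_two (((28 : ℕ) : ℤ) - 2 * (pc 28 x : ℤ))]
    rcases mul_eq_zero.1 h1 with h2 | h2
    · left; push_cast at h2; omega
    · right; push_cast at h2; omega
  · rintro (h | h) <;> rw [h] <;> norm_num

/-- The count, over a list of rows. -/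
def cnt (x : ℕ) : ℕ := ∑ y : Fin 28, ∑ z : Fin 28, ∑ w : Fin 28,
  if good (x ^^^ mask y ^^^ mask z ^^^ mask w) = true then 1 else 0

theorem num_eq (x : Fin 2 ⊕ (Fin 13 ⊕ Fin 13)) : num M x = cnt (mask (pos x)) := by
  unfold num cnt
  rw [← Equiv.sum_comp posE]
  refine Finset.sum_congr rfl fun y _ => ?_
  rw [← Equiv.sum_comp posE]
  refine Finset.sum_congr rfl fun z _ => ?_
  rw [← Equiv.sum_comp posE]
  refine Finset.sum_congr rfl fun w _ => ?_
  rw [quad_eq]
  exact if_congr (good_iff _) rfl rfl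

theorem cnt_first : cnt (mask (pos (Sum.inl 0))) = 78 := by decide +kernel

theorem cnt_third : cnt (mask (pos (Sum.inr (Sum.inl 0)))) = 54 := by decide +kernel

theorem M_rows : ∀ i j : Fin 2 ⊕ (Fin 13 ⊕ Fin 13),
    ∑ c, M i c * M j c = if i = j then 28 else 0 := by
  have h1 : ∀ i j : Fin 2 ⊕ (Fin 13 ⊕ Fin 13),
      decide (∑ c, M i c * M j c = if i = j then 28 else 0) = true := by
    decide +kernel
  exact fun i j => of_decide_eq_true (h1 i j)

theorem M_hadamard : IsHadamard M := by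
  constructor
  · intro i j
    rw [M_eq]
    unfold sg
    split_ifs
    · right; rfl
    · left; rfl
  · ext i k
    rw [Matrix.mul_apply]
    simp only [Matrix.transpose_apply]
    rw [M_rows]
    simp [Matrix.one_apply]

theorem ab_gram : circ a * (circ a).transpose + circ b * (circ b).transpose =
    (28 : ℤ) • (1 : Matrix (Fin 13) (Fin 13) ℤ) - (2 : ℤ) • Matrix.of (fun _ _ => 1) := by
  decide +kernel

/-- There are circulant matrices `A, B` of signs of order `13` with `A Aᵀ + B Bᵀ = 28 I - 2 J` such that the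
two-circulant-core matrix `H(A, B)` is a Hadamard matrix of order `28` and is not cocyclic. -/
theorem result : ∃ a b : Fin 13 → ℤ, (∀ i, a i = 1 ∨ a i = -1) ∧ (∀ i, b i = 1 ∨ b i = -1) ∧
    circ a * (circ a).transpose + circ b * (circ b).transpose =
      (28 : ℤ) • (1 : Matrix (Fin 13) (Fin 13) ℤ) - (2 : ℤ) • Matrix.of (fun _ _ => 1) ∧
    IsHadamard (twoCore (circ a) (circ b)) ∧ ¬ IsCocyclic (twoCore (circ a) (circ b)) := by
  refine ⟨a, b, by decide, by decide, ab_gram, M_hadamard, fun h => ?_⟩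
  have h1 := num_const M h (Sum.inl 0) (Sum.inr (Sum.inl 0))
  rw [num_eq, num_eq, cnt_first, cnt_third] at h1
  omega

end Pool.Agent.Results.MP_e1608d_co.OrderTwentyEight
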